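import Pool.Agent.Lib.MP_1c11af_pr.PL.Low
import Pool.Agent.Lib.MP_1c11af_pr.Asym

/-!
Asymptotics: the diameter up to powers of the logarithm.
-/

namespace Pool.Agent.Lib.MP_1c11af_pr

open Finset MeasureTheory Real Filter Topology
open scoped Classical

set_option linter.unusedSectionVars false

lemma le_div_sqrt {γ x : ℝ} (γ0 : 0 < γ) (γ1 : γ ≤ 1) (hx : 0 ≤ x) : x ≤ x / √γ := by
  rw [le_div_iff₀ (sqrt_pos.2 γ0)]
  exact mul_le_of_le_one_right hx (sqrt_le_one.2 γ1)

lemma cond2_ev {γ : ℝ} (γ0 : 0 < γ) (γ1 : γ < 1 / 3) : ∀ᶠ L : ℝ in atTop,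
    Cond2 γ L (γ * exp (γ * L)) (exp ((1 - γ) / 2 * L) / √γ) ⌈121 * L + 1⌉₊ := by
  filter_upwards [eventually_ge_atTop (10000000 : ℝ),
    ev_exp (show 0 < (1 - 3 * γ) / 2 by linarith) 1 7 0, ev_exp γ0 (1 / γ) 2 0,
    ev_exp (show 0 < γ / 5 by positivity) 66 1 0] with L h1 h2 h3 h4
  simp only [pow_zero, mul_one, one_mul, pow_one] at h2 h3 h4
  have a1 : 121 * L + 1 ≤ (⌈121 * L + 1⌉₊ : ℝ) := Nat.le_ceil _
  have a2 : (⌈121 * L + 1⌉₊ : ℝ) < 121 * L + 1 + 1 := Nat.ceil_lt_add_one (by positivity)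
  refine ⟨γ0, γ1.le, by linarith, by linarith, h1, rfl, by positivity, ?_, ?_, ?_, ?_⟩
  · rw [div_pow, sq_sqrt γ0.le, ← mul_assoc, div_mul_cancel₀ _ γ0.ne', ← exp_nat_mul, ← exp_add]
    exact congrArg exp (by push_cast; ring)
  · refine le_trans ?_ (le_div_sqrt γ0 (by linarith) (exp_pos _).le)
    have a3 : γ * exp (γ * L) * L ^ 7 ≤ 1 * exp (γ * L) * exp ((1 - 3 * γ) / 2 * L) := by
      gcongr; linarith
    refine a3.trans (le_of_eq ?_)
    rw [one_mul, ← exp_add]
    exact congrArg exp (by ring)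
  · have := mul_le_mul_of_nonneg_left h3 γ0.le
    rwa [← mul_assoc, mul_one_div_cancel γ0.ne', one_mul] at this
  · rw [show γ * L / 5 = γ / 5 * L by ring]; exact h4

lemma tend_mul_exp : Tendsto (fun L : ℝ => L * exp (-L)) atTop (𝓝 0) := by
  simpa using tendsto_pow_mul_exp_neg_atTop_nhds_zero 1

theorem tend_upper2 {γ : ℝ} (γ0 : 0 < γ) :
    Tendsto (fun n : ℕ => Pr γ (fun S : Finset (Sym2 (Fin n)) => ∃ k P, PathIn S P k ∧
      (n : ℝ) ^ (max (1 / 3) ((1 - γ) / 2)) * log n ^ 7 < k)) atTop (𝓝 0) := by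
  have key : ∀ (n : ℕ) (K : ℕ) (x : ℝ), 1 ≤ n →
      (K : ℝ) ≤ exp (max (1 / 3) ((1 - γ) / 2) * log n) * log n ^ 7 →
      Pr γ (fun S : Finset (Sym2 (Fin n)) => ∃ P, PathIn S P K) ≤ x →
      Pr γ (fun S : Finset (Sym2 (Fin n)) => ∃ k P, PathIn S P k ∧
        (n : ℝ) ^ (max (1 / 3) ((1 - γ) / 2)) * log n ^ 7 < k) ≤ x := by
    intro n K x hn hK h
    refine le_trans (Pr_mono γ ?_) h
    rintro S _ ⟨k, P, hP, hk⟩
    rw [rpow_def_of_pos (by exact_mod_cast hn), mul_comm (log n)] at hk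
    exact ⟨P, hP.trunc K (by exact_mod_cast (hK.trans hk.le))⟩
  rcases le_or_gt (1 / 3) γ with hγ | hγ
  · have t1 : Tendsto (fun L : ℝ => exp (-(0.08 * L)) + 8 * exp (-L) + 620 / L) atTop (𝓝 0) := by
      simpa using ((tend_exp (a := 0.08) (by norm_num)).add
        (tendsto_exp_neg_atTop_nhds_zero.const_mul 8)).add (tendsto_id.const_div_atTop 620)
    refine squeeze_zero' (Eventually.of_forall (fun _ => Pr_nonneg _ _)) ?_ (t1.comp tend_log)
    filter_upwards [eventually_ge_atTop 1, tend_log.eventually (eventually_ge_atTop 30000)]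
      with n h1 h2
    obtain ⟨K, hK, hs⟩ := high_upper (card_fin h1) hγ h2
    refine key n K _ h1 (hK.trans ?_) (Pr_le_of_Sm (by rw [Function.comp_apply]; positivity) hs)
    rw [mul_comm, max_eq_left (by linarith), show 1 / 3 * log n = log n / 3 by ring]
    exact mul_le_mul_of_nonneg_left (pow_le_pow_right₀ (by linarith) (by norm_num)) (exp_pos _).le
  · have t1 : Tendsto (fun L : ℝ => exp (-(0.08 * L)) + 800 * (L * exp (-L)) + 32 / L)
        atTop (𝓝 0) := by
      simpa using ((tend_exp (a := 0.08) (by norm_num)).add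
        (tend_mul_exp.const_mul 800)).add (tendsto_id.const_div_atTop 32)
    refine squeeze_zero' (Eventually.of_forall (fun _ => Pr_nonneg _ _)) ?_ (t1.comp tend_log)
    filter_upwards [eventually_ge_atTop 1, tend_log.eventually (eventually_ge_atTop 0),
      tend_log.eventually (cond2_ev γ0 hγ),
      tend_log.eventually (eventually_ge_atTop (2 * 10 ^ 15 / √γ))] with n h1 h2 h3 h4
    obtain ⟨K, hK, hs⟩ := low_upper2 (card_fin h1) h3
    refine key n K _ h1 (hK.trans ?_) (Pr_le_of_Ph (by rw [Function.comp_apply]; positivity) hs)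
    rw [max_eq_right (by linarith)]
    have a1 := mul_le_mul_of_nonneg_left h4
      (show 0 ≤ exp ((1 - γ) / 2 * log n) * log n ^ 6 by positivity)
    refine le_trans (le_of_eq ?_) (a1.trans (le_of_eq ?_)) <;> ring

theorem tend_lower2 {γ : ℝ} (γ0 : 0 < γ) :
    Tendsto (fun n : ℕ => Pr γ (fun S : Finset (Sym2 (Fin n)) => ∃ D : ℕ,
      (D : ℝ) < (n : ℝ) ^ (max (1 / 3) ((1 - γ) / 2)) / log n ^ 6 ∧ ∀ u v, Wd S D u v))
      atTop (𝓝 0) := by
  have key : ∀ (n : ℕ) (x : ℝ), 1 ≤ n →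
      (∀ D : ℕ, (D : ℝ) ≤ exp (max (1 / 3) ((1 - γ) / 2) * log n) / log n ^ 6 →
        Pr γ (fun S : Finset (Sym2 (Fin n)) => ∀ u v, Wd S D u v) ≤ x) →
      Pr γ (fun S : Finset (Sym2 (Fin n)) => ∃ D : ℕ,
        (D : ℝ) < (n : ℝ) ^ (max (1 / 3) ((1 - γ) / 2)) / log n ^ 6 ∧ ∀ u v, Wd S D u v) ≤ x := by
    intro n x hn h
    refine le_trans (Pr_mono γ ?_) (h _ (Nat.floor_le (by positivity)))
    rintro S _ ⟨D, hD, hW⟩ u v
    rw [rpow_def_of_pos (by exact_mod_cast hn), mul_comm (log n)] at hD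
    exact (hW u v).mono (Finset.Subset.refl _) (Nat.le_floor hD.le)
  rcases le_or_gt (1 / 3) γ with hγ | hγ
  · have t1 : Tendsto (fun L : ℝ => 4 * exp (-L) + 320000 / L ^ 6) atTop (𝓝 0) := by
      simpa using (tendsto_exp_neg_atTop_nhds_zero.const_mul 4).add
        ((tendsto_pow_atTop (n := 6) (by norm_num)).const_div_atTop (320000 : ℝ))
    refine squeeze_zero' (Eventually.of_forall (fun _ => Pr_nonneg _ _)) ?_ (t1.comp tend_log)
    filter_upwards [eventually_ge_atTop 1, tend_log.eventually (eventually_ge_atTop 30000)]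
      with n h1 h2
    refine key n _ h1 (fun D hD => Pr_le_of_Sm (by rw [Function.comp_apply]; positivity)
      (high_lower (card_fin h1) hγ h2 D (hD.trans ?_)))
    rw [max_eq_left (by linarith), show 1 / 3 * log n = log n / 3 by ring]
    exact div_le_div_of_nonneg_left (exp_pos _).le (by positivity)
      (pow_le_pow_right₀ (by linarith) (by norm_num))
  · have t1 : Tendsto (fun L : ℝ => 800 * (L * exp (-L)) + 32 / L + 10 ^ 37 / L ^ 2)
        atTop (𝓝 0) := by
      simpa using ((tend_mul_exp.const_mul 800).add (tendsto_id.const_div_atTop 32)).add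
        ((tendsto_pow_atTop (n := 2) (by norm_num)).const_div_atTop ((10 : ℝ) ^ 37))
    refine squeeze_zero' (Eventually.of_forall (fun _ => Pr_nonneg _ _)) ?_ (t1.comp tend_log)
    filter_upwards [eventually_ge_atTop 1, tend_log.eventually (eventually_ge_atTop 1),
      tend_log.eventually (cond2_ev γ0 hγ)] with n h1 h2 h3
    refine key n _ h1 (fun D hD => Pr_le_of_Ph (by rw [Function.comp_apply]; positivity)
      (low_lower2 (card_fin h1) h3 D ?_))
    rw [max_eq_right (by linarith), le_div_iff₀ (by positivity)] at hD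
    exact hD.trans (le_div_sqrt γ0 (by linarith) (exp_pos _).le)

theorem tend_main2 {γ : ℝ} (γ0 : 0 < γ) :
    Tendsto (fun n : ℕ => Pr γ (fun S : Finset (Sym2 (Fin n)) =>
      (n : ℝ) ^ (max (1 / 3) ((1 - γ) / 2)) / log n ^ 6 ≤ (gr S).diam ∧
        ((gr S).diam : ℝ) ≤ (n : ℝ) ^ (max (1 / 3) ((1 - γ) / 2)) * log n ^ 7)) atTop (𝓝 1) := by
  have t1 := (tendsto_const_nhds (x := (1 : ℝ))).sub ((tend_upper2 γ0).add (tend_lower2 γ0))
  rw [add_zero, sub_zero] at t1
  refine tendsto_of_tendsto_of_tendsto_of_le_of_le' t1 tendsto_const_nhds ?_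
    (Eventually.of_forall (fun n => ?_))
  · filter_upwards [eventually_ge_atTop 1] with n hn
    have : Nonempty (Fin n) := ⟨⟨0, hn⟩⟩
    rw [sub_le_iff_le_add]
    refine one_le_Pr γ (fun S hS => ?_)
    by_contra hcon
    push Not at hcon
    obtain ⟨c1, c2, c3⟩ := hcon
    have hc : (gr S).Connected := ⟨hS.1⟩
    refine absurd (c1 ?_) (not_lt.2 ?_)
    · by_contra h1
      obtain ⟨u, v, h2⟩ := c3 _ (not_le.1 h1)
      refine h2 ?_
      unfold Wd
      rw [← SimpleGraph.Reachable.coe_dist_eq_edist (hS.1 u v)]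
      exact_mod_cast SimpleGraph.dist_le_diam (SimpleGraph.connected_iff_ediam_ne_top.1 hc)
    · obtain ⟨u, v, h2⟩ := (gr S).exists_dist_eq_diam
      obtain ⟨P, hP, _⟩ := (hS.1 u v).exists_path
      rw [h2] at hP
      exact c2 _ P hP
  · have := Pr_add_le (V := Fin n) γ (B := fun S =>
      (n : ℝ) ^ (max (1 / 3) ((1 - γ) / 2)) / log n ^ 6 ≤ (gr S).diam ∧
        ((gr S).diam : ℝ) ≤ (n : ℝ) ^ (max (1 / 3) ((1 - γ) / 2)) * log n ^ 7)
      (C := fun _ => False) (fun _ _ h => h)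
    linarith [Pr_nonneg (V := Fin n) γ (fun _ => False)]

end Pool.Agent.Lib.MP_1c11af_pr
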