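import Pool.Agent.Lib.MP_1c11af_pr.Num

/-!
A block lemma whose loss is linear in the number of levels.
-/

namespace Pool.Agent.Lib.MP_1c11af_pr

open Finset MeasureTheory
open scoped Classical

set_option linter.unusedSectionVars false

variable {V : Type*} [DecidableEq V] [Fintype V]

/-- pigeonhole over the levels -/
lemma level_pigeon (g m : ℕ → ℕ) (J : ℕ) (hJ : g J = 0) (hg : ∀ i < J, g i ≤ g (i + 1) + m i)
    (h0 : 0 < g 0) : ∃ i < J, 2 * g (i + 1) ≤ g 0 ∧ g 0 ≤ 2 * J * m i := by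
  by_contra hcon
  push Not at hcon
  have key : ∀ t ≤ J, 2 * J * g (J - t) ≤ t * g 0 := by
    intro t ht
    induction t with
    | zero => simp [hJ]
    | succ t ih =>
      have h1 := ih (by omega)
      have h2 : J - t = J - (t + 1) + 1 := by omega
      have h3 := hg (J - (t + 1)) (by omega)
      rw [h2] at h1
      have h4 : 2 * g (J - (t + 1) + 1) ≤ g 0 := by
        have h5 : t * g 0 ≤ J * g 0 := Nat.mul_le_mul_right _ (by omega)
        have h6 : J * (2 * g (J - (t + 1) + 1)) ≤ J * g 0 := by nlinarith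
        exact Nat.le_of_mul_le_mul_left h6 (by omega)
      have h5 := hcon (J - (t + 1)) (by omega) h4
      have h6 := Nat.mul_le_mul_left (2 * J) h3
      nlinarith
  have h1 := key J le_rfl
  rw [Nat.sub_self] at h1
  rcases Nat.eq_zero_or_pos J with h2 | h2
  · subst h2; omega
  · nlinarith [Nat.mul_pos h2 h0]

lemma block2 {X : ℕ → Finset (Sym2 V)} {Xm : Finset (Sym2 V)} {J M Sz τ b f ζ : ℕ}
    (hm : ∀ i, Xm ⊆ X i) (hX : ∀ i, X i ⊆ X (i + 1))
    (g0 : ∀ v, csz (X 0) v < M) (g1 : ∀ i < J, ∀ v, csz (X i) v < M → csz (X i) v < Sz)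
    (hf : 2 * J * (f * Sz) < τ) (hζ : 2 * ζ ≤ τ)
    {Q : ℕ → V} (hQ : PathIn (X J) Q b) (hbig : ∃ j ≤ b, M ≤ csz (X J) (Q j))
    (g7 : τ ≤ (cl Xm (vs Q b)).card) :
    ∃ i < J, f ≤ ((range b).filter
        (fun l => pe Q l ∉ X i ∧ M ≤ csz (X (i + 1)) (Q (l + 1)))).card ∧
      ζ ≤ ((cl Xm (vs Q b)).filter (fun z => M ≤ csz (X (i + 1)) z)).card := by
  set A := cl Xm (vs Q b) with hA
  set g : ℕ → ℕ := fun i => (A.filter (fun z => csz (X i) z < M)).card with hg
  set m : ℕ → ℕ := fun i =>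
    (A.filter (fun z => csz (X i) z < M ∧ M ≤ csz (X (i + 1)) z)).card with hmm
  have hg0 : g 0 = A.card := by
    simp only [hg]
    rw [Finset.filter_true_of_mem (fun z _ => g0 z)]
  have hgJ : g J = 0 := by
    simp only [hg]
    rw [Finset.card_eq_zero, Finset.filter_eq_empty_iff]
    intro z hz
    obtain ⟨v, hv, hvz⟩ := mem_cl.1 hz
    obtain ⟨l, hl, rfl⟩ := mem_vs.1 hv
    obtain ⟨j, hj, hb⟩ := hbig
    have h1 : Rc (X J) (Q 0) (Q l) :=
      rc_of_steps (Nat.zero_le _) (fun a _ h3 => hQ.2 a (by omega))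
    have h2 : Rc (X J) (Q 0) (Q j) :=
      rc_of_steps (Nat.zero_le _) (fun a _ h3 => hQ.2 a (by omega))
    rw [← csz_eq (hvz.mono (hm J)), ← csz_eq h1, csz_eq h2]
    omega
  have hstep : ∀ i < J, g i ≤ g (i + 1) + m i := by
    intro i _
    refine le_trans (Finset.card_le_card ?_) (Finset.card_union_le _ _)
    intro z hz
    obtain ⟨z1, z2⟩ := Finset.mem_filter.1 hz
    rcases lt_or_ge (csz (X (i + 1)) z) M with h1 | h1
    · exact Finset.mem_union_left _ (Finset.mem_filter.2 ⟨z1, h1⟩)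
    · exact Finset.mem_union_right _ (Finset.mem_filter.2 ⟨z1, z2, h1⟩)
  obtain ⟨i, hi, i1, i2⟩ := level_pigeon g m J hgJ hstep (by omega)
  refine ⟨i, hi, ?_, ?_⟩
  · set Fs := (range b).filter
      (fun l => pe Q l ∉ X i ∧ M ≤ csz (X (i + 1)) (Q (l + 1))) with hFs
    set B := (insert 0 (Fs.image (fun l => l + 1))).filter (fun a => csz (X i) (Q a) < Sz) with hB
    have h1 : A.filter (fun z => csz (X i) z < M ∧ M ≤ csz (X (i + 1)) z) ⊆
        B.biUnion (fun a => cl (X i) {Q a}) := by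
      intro z hz
      obtain ⟨z1, z2, z3⟩ := Finset.mem_filter.1 hz
      obtain ⟨v, hv, hvz⟩ := mem_cl.1 z1
      obtain ⟨l, hl, rfl⟩ := mem_vs.1 hv
      obtain ⟨s, s1, s2, s3⟩ := exists_start (fun l => pe Q l ∉ X i) hl
      have s4 : Rc (X i) (Q s) z :=
        (rc_of_steps s2 (fun a h3 h4 => not_not.1 (s3 a h3 h4))).trans (hvz.mono (hm i))
      refine Finset.mem_biUnion.2 ⟨s, Finset.mem_filter.2 ⟨?_, ?_⟩, mem_cl_single.2 s4⟩
      · rcases mem_starts s1 with h2 | ⟨h2, h3⟩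
        · rw [h2]; exact Finset.mem_insert_self _ _
        · refine Finset.mem_insert_of_mem (Finset.mem_image.2 ⟨s - 1, Finset.mem_filter.2
            ⟨Finset.mem_range.2 (by omega), h3, ?_⟩, by omega⟩)
          rw [show s - 1 + 1 = s by omega, csz_eq (s4.mono (hX i))]
          exact z3
      · rw [csz_eq s4]
        exact g1 i hi z z2
    have h2 : m i ≤ B.card * Sz := by
      refine (Finset.card_le_card h1).trans (Finset.card_biUnion_le.trans ?_)
      rw [← smul_eq_mul]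
      exact Finset.sum_le_card_nsmul _ _ Sz (fun a ha => (Finset.mem_filter.1 ha).2.le)
    have h3 : B.card ≤ Fs.card + 1 :=
      (Finset.card_filter_le _ _).trans ((Finset.card_insert_le _ _).trans
        (Nat.add_le_add_right Finset.card_image_le 1))
    by_contra hcon
    have h4 : B.card * Sz ≤ f * Sz := Nat.mul_le_mul_right _ (by omega)
    have h5 := Nat.mul_le_mul_left (2 * J) (h2.trans h4)
    omega
  · have h1 := Finset.card_filter_add_card_filter_not (s := A) (fun z => csz (X (i + 1)) z < M)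
    simp only [not_lt] at h1
    have h2 : g (i + 1) = (A.filter (fun z => csz (X (i + 1)) z < M)).card := rfl
    omega

variable {w : ℝ → ℝ} {p : ℕ → ℝ} {pm Λ ρ : ℝ} {J M k h Sz τ b C len : ℕ} {U : Sym2 V → ℝ}
  {S : Finset (Sym2 V)}

lemma Good.superblock2 (hp : Par w p pm Λ ρ J k h len) (hG : Good p pm J M k h Sz τ b C len U S)
    (hS : IsT S) {f ζ : ℕ} (hSM : Sz ≤ M) (hkb : k ≤ b)
    (hf : 2 * J * (f * Sz) < τ) (hζ : 2 * ζ ≤ τ) {P : ℕ → V} {K pos pos' : ℕ}
    (hP : PathIn (lev U (p J)) P K) (h1 : pos + (J + 1) * b ≤ pos') (h2 : pos' ≤ K) :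
    ∃ Ch : Finset (ℕ × V), f * (ζ - h) ≤ Ch.card ∧
      ∀ c ∈ Ch, Adm w (p 0) (p J) Λ M U S P pos pos' c.1 c.2 := by
  have hb : ∀ t, t ≤ J → ∃ i < J, f ≤ ((range b).filter
        (fun l => pe (fun j => P (pos + t * b + j)) l ∉ lev U (p i) ∧
          M ≤ csz (lev U (p (i + 1))) (P (pos + t * b + (l + 1))))).card ∧
      ζ ≤ ((cl (lev U pm) (vs (fun j => P (pos + t * b + j)) b)).filter
        (fun z => M ≤ csz (lev U (p (i + 1))) z)).card := by
    intro t ht
    have h3 : t * b + b ≤ (J + 1) * b := by nlinarith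
    have hQ := hP.sub (pos + t * b) b (by omega)
    refine block2 (X := fun i => lev U (p i))
      (fun i => lev_mono U (hp.pm1.trans (hp.mono (Nat.zero_le _))))
      (fun i => lev_mono U (hp.mono (Nat.le_succ i))) (fun v => (hG.sub v).trans_le hSM) ?_
      hf hζ hQ ?_ (hG.clo _ hQ)
    · intro i hi v hv
      rcases i with _ | i
      · exact hG.sub v
      · exact hG.middle i (by omega) v hv
    · obtain ⟨J', hJ'⟩ : ∃ J', J = J' + 1 := ⟨J - 1, by have := hp.J0; omega⟩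
      have h4 := hG.short J' (by omega) (fun j => P (pos + t * b + j))
      rw [← hJ'] at h4
      obtain ⟨j, hj, h5⟩ := h4 (hQ.trunc k hkb)
      exact ⟨j, hj.trans hkb, h5⟩
  choose! I hI1 hI2 hI3 using hb
  obtain ⟨t, ht, htI⟩ : ∃ t < J, I t ≤ I (t + 1) := by
    by_contra hcon
    push Not at hcon
    have : ∀ t ≤ J, I t + t ≤ I 0 := by
      intro t ht
      induction t with
      | zero => simp
      | succ t ih =>
        have := ih (by omega)
        have := hcon t (by omega)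
        omega
    have := this J le_rfl
    have := hI1 0 (by omega)
    omega
  have a1 := hI1 (t + 1) ht
  have a2 := hI2 (t + 1) ht
  have a3 := hI3 t ht.le
  set i := I (t + 1)
  set o := pos + (t + 1) * b with ho
  have ho1 : o + b ≤ pos' := by
    have : (t + 1) * b + b ≤ (J + 1) * b := by nlinarith
    omega
  have ho2 : pos + t * b + b = o := by rw [ho]; ring
  set Fs := (range b).filter (fun l => pe (fun j => P (o + j)) l ∉ lev U (p i) ∧
    M ≤ csz (lev U (p (i + 1))) (P (o + (l + 1))))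
  set Zs := (cl (lev U pm) (vs (fun j => P (pos + t * b + j)) b)).filter
    (fun z => M ≤ csz (lev U (p (I t + 1))) z)
  refine ⟨((Fs ×ˢ Zs).filter (fun c => p J < U s(c.2, P (o + c.1 + 1)))).image
    (fun c => (o + c.1, c.2)), ?_, ?_⟩
  · rw [Finset.card_image_of_injective]
    · refine le_trans (Nat.mul_le_mul_right _ a2) (card_filter_prod_ge _ _ _ _ (fun l _ => ?_))
      have b1 : Zs ⊆ Zs.filter (fun z => p J < U s(z, P (o + l + 1))) ∪
          univ.filter (fun x => U s(x, P (o + l + 1)) ≤ p J) := by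
        intro z hz
        rcases lt_or_ge (p J) (U s(z, P (o + l + 1))) with h3 | h3
        · exact Finset.mem_union_left _ (Finset.mem_filter.2 ⟨hz, h3⟩)
        · exact Finset.mem_union_right _ (Finset.mem_filter.2 ⟨Finset.mem_univ _, h3⟩)
      have b2 := (Finset.card_le_card b1).trans (Finset.card_union_le _ _)
      have b3 := hG.deg (P (o + l + 1))
      dsimp only
      omega
    · rintro ⟨l, z⟩ ⟨l', z'⟩ h3
      simp only [Prod.mk.injEq] at h3 ⊢
      exact ⟨by omega, h3.2⟩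
  · intro c hc
    obtain ⟨⟨l, z⟩, h3, rfl⟩ := Finset.mem_image.1 hc
    obtain ⟨h4, h5⟩ := Finset.mem_filter.1 h3
    obtain ⟨h6, h7⟩ := Finset.mem_product.1 h4
    obtain ⟨h8, h9, h10⟩ := Finset.mem_filter.1 h6
    obtain ⟨h11, h12⟩ := Finset.mem_filter.1 h7
    have h13 := Finset.mem_range.1 h8
    dsimp only at h5 h9 h10 h11 h12 h13 ⊢
    have h14 : p i < U (pe P (o + l)) := by
      rw [mem_lev, not_le] at h9
      exact h9
    have h15 : M ≤ csz (lev U (p (i + 1))) z :=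
      h12.trans (csz_mono (lev_mono U (hp.mono (by omega))) z)
    refine ⟨by omega, ?_, (hp.mono (Nat.zero_le i)).trans_lt h14, h5, ?_, ?_⟩
    · obtain ⟨v, hv, hvz⟩ := mem_cl.1 h11
      obtain ⟨a, ha, rfl⟩ := mem_vs.1 hv
      refine ⟨pos + t * b + a, by omega, by omega, hS.rc_of_sep (fun e he hn => ?_)⟩
      exact Finset.mem_inter.2 ⟨he, hG.am1.rc hvz he hn⟩
    · obtain ⟨Q, m, q1, q2, q3⟩ := hG.res hp a1 h15 h10
      refine ⟨Q, m, q1, q2, le_trans ?_ q3⟩
      have q4 : w (U (pe P (o + l))) ≤ w (p i) :=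
        hp.anti _ _ (hp.pm0.trans_le (hp.pm1.trans (hp.mono (Nat.zero_le _)))) h14.le
      have q5 : 0 ≤ ∑ l ∈ range m, (w (U (pe Q l)))⁻¹ :=
        Finset.sum_nonneg (fun l _ => (inv_pos.2 (hp.w0 _)).le)
      nlinarith [mul_le_mul_of_nonneg_right q4 q5]
    · rw [mem_big, csz_eq (Rc.of_mem (hP.2 (o + l) (by omega)))]
      exact h10.trans (csz_mono (lev_mono U (hp.mono (by omega))) _)

lemma Good.upper2 (hp : Par w p pm Λ ρ J k h len) (hG : Good p pm J M k h Sz τ b C len U S)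
    (hS : IsT S) {f ζ : ℕ} (hSM : Sz ≤ M) (hkb : k ≤ b)
    (hf : 2 * J * (f * Sz) < τ) (hζ : 2 * ζ ≤ τ) (r : ℕ) {P : ℕ → V}
    (hP : PathIn (S ∩ lev U (p J)) P (r * ((J + 1) * b))) :
    (big (lev U (p J)) M).card ≤ C ∧ ∃ (P : ℕ → V) (k : ℕ)
      (pos : ℕ → ℕ) (Ch : ℕ → Finset (ℕ × V)), PathIn S P k ∧ PathIn (lev U (p J)) P k ∧
      (∀ t ≤ r, pos t ≤ k) ∧ (∀ t < r, f * (ζ - h) ≤ (Ch t).card) ∧
      ∀ t < r, ∀ c ∈ Ch t, Adm w (p 0) (p J) Λ M U S P (pos t) (pos (t + 1)) c.1 c.2 := by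
  have h1 : ∀ t, t < r → ∃ Ch : Finset (ℕ × V), f * (ζ - h) ≤ Ch.card ∧
      ∀ c ∈ Ch, Adm w (p 0) (p J) Λ M U S P (t * ((J + 1) * b)) ((t + 1) * ((J + 1) * b))
        c.1 c.2 := fun t ht =>
    hG.superblock2 hp hS hSM hkb hf hζ (hP.mono Finset.inter_subset_right)
      (le_of_eq (by ring)) (Nat.mul_le_mul_right _ ht)
  choose! Ch h2 h3 using h1
  exact ⟨hG.few, P, _, fun t => t * ((J + 1) * b), Ch, hP.mono Finset.inter_subset_left,
    hP.mono Finset.inter_subset_right, fun t ht => Nat.mul_le_mul_right _ ht, h2, h3⟩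

end Pool.Agent.Lib.MP_1c11af_pr
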