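import Pool.Agent.Results.MP_1c11af_pr.Polylog

/-!
The definitions and the statement of the earlier hand-in `Exponent`, copied word for word, and
its derivation from the hand-in `Polylog`.
-/

namespace Pool.Agent.Lib.MP_1c11af_pr.OldExponent

open MeasureTheory Filter Topology
open scoped Classical

/-- The edges of the complete graph on `n` vertices. -/
abbrev Edge (n : ℕ) : Type := (⊤ : SimpleGraph (Fin n)).edgeSet

/-- The law of the environment: independent uniform variables on `[0,1]`, one for each edge. -/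
noncomputable def env (n : ℕ) : Measure (Edge n → ℝ) :=
  Measure.pi (fun _ => volume.restrict (Set.Icc (0 : ℝ) 1))

/-- The weight of a subgraph: the product of `exp (U e ^ (-γ))` over its edges. -/
noncomputable def weight (γ : ℝ) (n : ℕ) (U : Edge n → ℝ) (T : SimpleGraph (Fin n)) : ℝ :=
  ∏ e : Edge n, if e.1 ∈ T.edgeSet then Real.exp (U e ^ (-γ)) else 1

/-- Given the environment, the probability that the random spanning tree has property `A`. -/
noncomputable def quenched (γ : ℝ) (n : ℕ) (U : Edge n → ℝ) (A : SimpleGraph (Fin n) → Prop) : ℝ :=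
  (∑ T : SimpleGraph (Fin n), if T.IsTree ∧ A T then weight γ n U T else 0) /
    ∑ T : SimpleGraph (Fin n), if T.IsTree then weight γ n U T else 0

/-- The averaged probability that the random spanning tree has property `A`. -/
noncomputable def averaged (γ : ℝ) (n : ℕ) (A : SimpleGraph (Fin n) → Prop) : ℝ :=
  ∫ U, quenched γ n U A ∂(env n)

/-- The diameter of the random spanning tree is `n ^ (α + o(1))`. -/
def HasExponent (γ α : ℝ) : Prop :=
  ∀ ε : ℝ, 0 < ε → Tendsto (fun n : ℕ => averaged γ n (fun T =>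
    (n : ℝ) ^ (α - ε) ≤ (T.diam : ℝ) ∧ (T.diam : ℝ) ≤ (n : ℝ) ^ (α + ε))) atTop (𝓝 1)

theorem result (γ : ℝ) (hγ : 0 < γ) :
    (∀ α : ℝ, HasExponent γ α ↔ α = max (1 / 3) ((1 - γ) / 2)) ∧
      ((∃ α : ℝ, 1 / 3 < α ∧ α < 1 / 2 ∧ HasExponent γ α) ↔ γ < 1 / 3) :=
  (Pool.Agent.Results.MP_1c11af_pr.Polylog.result γ hγ).2

end Pool.Agent.Lib.MP_1c11af_pr.OldExponent
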