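import Pool.Agent.Lib.MP_1c11af_pr.High

/-!
Parameters with a logarithmic number of levels and a bounded weight ratio.
-/

namespace Pool.Agent.Lib.MP_1c11af_pr

open Finset MeasureTheory Real
open scoped Classical

set_option linter.unusedSectionVars false

/-- conditions on the parameters -/
structure Cond2 (γ L F s : ℝ) (J : ℕ) : Prop where
  γ0 : 0 < γ
  γ1 : γ ≤ 1 / 3
  J1 : 242 * L ≤ 2 * J - 1
  J2 : 2 * J + 1 ≤ 250 * L
  L1 : 10000000 ≤ L
  hF : F = γ * exp (γ * L)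
  s0 : 0 < s
  hs : s ^ 2 * F = exp L
  hFs : F * L ^ 7 ≤ s
  hT : L ^ 2 ≤ F
  hB : 66 * L ≤ exp (γ * L / 5)

variable {γ L F s : ℝ} {J : ℕ}

lemma Cond2.basic (h : Cond2 γ L F s J) : 3 ≤ J ∧ L ≤ F ∧ F * L ^ 3 ≤ s ∧ F * L ≤ s ∧ F ≤ s ∧
    (2 * J + 1) * (1 / F) ≤ 1 / 100 ∧ 2000000 * L ≤ (1 / F) ^ 3 * exp L := by
  have L1 := h.L1
  have hL : (1 : ℝ) ≤ L := by linarith
  have a1 : (3 : ℝ) ≤ J := by linarith [h.J1]
  have a2 : L ≤ F := le_trans (le_self_pow₀ hL (by norm_num)) h.hT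
  have F0 : 0 < F := by linarith
  have a3 : ∀ j, j ≤ 7 → F * L ^ j ≤ s := fun j hj =>
    le_trans (mul_le_mul_of_nonneg_left (pow_le_pow_right₀ hL hj) F0.le) h.hFs
  have a4 : F * L ≤ s := by simpa using a3 1 (by norm_num)
  refine ⟨by exact_mod_cast a1, a2, a3 3 (by norm_num), a4, by simpa using a3 0 (by norm_num),
    ?_, ?_⟩
  · rw [mul_one_div, div_le_iff₀ F0]
    nlinarith only [h.J2, h.hT, L1]
  · rw [← h.hs, one_div, inv_pow, ← div_eq_inv_mul, le_div_iff₀ (by positivity)]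
    have a5 : (F * L) ^ 2 ≤ s ^ 2 := by gcongr
    have a6 : 2000000 * L * F ^ 2 ≤ L * L * F ^ 2 := by gcongr; linarith
    have a7 := mul_le_mul_of_nonneg_right (show 2000000 * L * F ^ 2 ≤ s ^ 2 by
      linarith only [a5, a6]) F0.le
    linarith only [a7]

lemma exp_five_le : exp 5 ≤ 150 := by
  have h1 : exp 5 = exp 1 ^ 5 := by rw [← exp_nat_mul]; norm_num
  have h2 : exp 1 ^ 5 ≤ (2.72 : ℝ) ^ 5 :=
    pow_le_pow_left₀ (exp_pos 1).le (by linarith [exp_one_lt_d9]) 5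
  rw [h1]
  exact h2.trans (by norm_num)

variable {V : Type*} [DecidableEq V] [Fintype V]

theorem setup2 (hL : (Fintype.card V : ℝ) = exp L) (h : Cond2 γ L F s J) :
    ∃ M k hh Sz τ b C len : ℕ,
      Par (wg γ) (lv (Fintype.card V) (1 / F))
        (pl (Fintype.card V) (-((2 * J + 1) * (1 / F)))) (3 + hh * 150) 150 J k hh len ∧
      Sm γ (fun (U : Sym2 V → ℝ) S => ¬ Good (lv (Fintype.card V) (1 / F))
        (pl (Fintype.card V) (-((2 * J + 1) * (1 / F)))) J M k hh Sz τ b C len U S)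
        ((6 * J + 12) * exp (-L) + 32 / L) ∧
      s ^ 2 / 200 ≤ M ∧ (k : ℝ) ≤ 11 * (L * F) ∧ (hh : ℝ) ≤ 150001 * L ^ 2 ∧
      (Sz : ℝ) ≤ 101 * (L * F ^ 2) ∧ 10 ^ 12 * (s * L ^ 4) ≤ b ∧
      (b : ℝ) ≤ 2 * (10 ^ 12 * (s * L ^ 4)) ∧
      125000000 * (s * L ^ 3 * F) ≤ τ ∧ (C : ℝ) ≤ 251 * (L ^ 2 * s ^ 2) ∧ L * F ≤ len := by
  obtain ⟨b1, b2, b3, b4, b5, hT, hy3⟩ := h.basic
  have hN' : (0 : ℝ) < Fintype.card V := hL ▸ exp_pos L
  have hN : (Fintype.card V : ℝ) = s ^ 2 * F := by rw [hL, h.hs]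
  have hJ : (3 : ℝ) ≤ J := by exact_mod_cast b1
  have s0 := h.s0
  have γ0 := h.γ0
  have γ1 := h.γ1
  have L1 := h.L1
  have J1 := h.J1
  have J2 := h.J2
  have F0 : 0 < F := by linarith
  have L0 : 0 < L := by linarith
  have hL1 : (1 : ℝ) ≤ L := by linarith
  rw [← hL] at hy3
  set y := 1 / F with hy
  have y0 : 0 < y := by positivity
  have hyF : y * F = 1 := by rw [hy]; field_simp
  have hyT : y ≤ (2 * J + 1) * y := le_mul_of_one_le_left y0.le (by linarith)
  have hyN : y * Fintype.card V = s ^ 2 := by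
    rw [hN, mul_left_comm, hyF, mul_one]
  have hs1 : 10000000 ≤ s := by linarith
  have hs2 : s ≤ s ^ 2 := by nlinarith only [hs1]
  have hL2 : 1 ≤ L ^ 2 := one_le_pow₀ hL1
  have hL4 : 1 ≤ L ^ 4 := one_le_pow₀ hL1
  have hsL : 1 ≤ s * L ^ 4 := one_le_mul_of_one_le_of_one_le (by linarith) hL4
  have hLF : 1 ≤ L * F ^ 2 := one_le_mul_of_one_le_of_one_le hL1 (one_le_pow₀ (by linarith))
  have hLs : 1 ≤ L ^ 2 * s ^ 2 := one_le_mul_of_one_le_of_one_le hL2 (by linarith)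
  set M := ⌊y * Fintype.card V / 100⌋₊ with hM
  set k := ⌈10 * L / y⌉₊ with hk
  set l := ⌈25 * L / y⌉₊ with hl
  set hh := ⌈150000 * L ^ 2⌉₊ with hhh
  set Sz := ⌈100 * (L * F ^ 2)⌉₊ with hSz
  set b := ⌈10 ^ 12 * (s * L ^ 4)⌉₊ with hb
  set τ := ⌊b / (16 * ((2 * J + 1) * y))⌋₊ with hτ
  set C := ⌈250 * (L ^ 2 * s ^ 2)⌉₊ with hC
  have hM2 : y * Fintype.card V / 200 ≤ M :=
    le_trans (le_of_eq (by ring)) (floor_ge_half (by rw [hyN]; linarith))
  have hceil : ∀ a : ℝ, 0 ≤ a → a ≤ y * ⌈a / y⌉₊ ∧ y * ⌈a / y⌉₊ ≤ a + y := by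
    intro a ha
    have a1 := mul_le_mul_of_nonneg_left (Nat.le_ceil (a / y)) y0.le
    have a2 := mul_le_mul_of_nonneg_left (Nat.ceil_lt_add_one (div_nonneg ha y0.le)).le y0.le
    rw [mul_add, mul_one] at a2
    rw [mul_div_cancel₀ _ y0.ne'] at a1 a2
    exact ⟨a1, a2⟩
  obtain ⟨hk1, hk2⟩ := hceil (10 * L) (by linarith)
  obtain ⟨hl1, hl2⟩ := hceil (25 * L) (by linarith)
  rw [← hk] at hk1 hk2
  rw [← hl] at hl1 hl2
  have hh1 : 150000 * L ^ 2 ≤ hh := Nat.le_ceil _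
  have hh2 : (hh : ℝ) < 150000 * L ^ 2 + 1 := Nat.ceil_lt_add_one (by positivity)
  have hS1 : 100 * (L * F ^ 2) ≤ Sz := Nat.le_ceil _
  have hS2 : (Sz : ℝ) < 100 * (L * F ^ 2) + 1 := Nat.ceil_lt_add_one (by positivity)
  have hb1 : 10 ^ 12 * (s * L ^ 4) ≤ b := Nat.le_ceil _
  have hb2 : (b : ℝ) ≤ 2 * (10 ^ 12 * (s * L ^ 4)) := ceil_le_two (by linarith)
  have T0 : 0 < (2 * J + 1) * y := by linarith
  have hτ1 : 16 * ((2 * J + 1) * y) * τ ≤ b := by
    have : (τ : ℝ) ≤ b / (16 * ((2 * J + 1) * y)) := Nat.floor_le (by positivity)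
    rwa [le_div_iff₀' (by positivity)] at this
  have hτ2 : (b : ℝ) ≤ 32 * ((2 * J + 1) * y) * τ := by
    have := floor_ge_half (y := b / (16 * ((2 * J + 1) * y)))
      ((one_le_div (by positivity)).2 (by linarith))
    rw [div_div, div_le_iff₀ (by positivity), ← hτ] at this
    linarith
  have hC1 : 250 * (L ^ 2 * s ^ 2) ≤ C := Nat.le_ceil _
  have hC2 : (C : ℝ) < 250 * (L ^ 2 * s ^ 2) + 1 := Nat.ceil_lt_add_one (by positivity)
  have hmul : ∀ x : ℝ, y * x * F = x := fun x => by rw [mul_right_comm, hyF, one_mul]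
  have hk3 : 10 * (L * F) ≤ k := by
    have := mul_le_mul_of_nonneg_right hk1 F0.le
    rw [hmul] at this
    linarith
  have hk4 : (k : ℝ) ≤ 11 * (L * F) := by
    have := mul_le_mul_of_nonneg_right (show y * k ≤ 11 * L by linarith) F0.le
    rw [hmul] at this
    linarith
  have hE : ∀ x : ℝ, γ * (x * y) * exp (γ * L) = x := fun x => by
    have : γ * (x * y) * exp (γ * L) = x * (y * (γ * exp (γ * L))) := by ring
    rw [this, ← h.hF, hyF, mul_one]
  have ham1 : 6 * L ≤ γ * (2 * J * y) * exp (γ * L) := by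
    rw [hE]; linarith
  have hexp : ∀ x, x ≤ 1 → exp (γ * L) / 3 ≤ exp (γ * (L - x)) := by
    intro x hx
    have a1 : exp (γ * L) ≤ exp (γ * (L - x)) * exp 1 := by
      rw [← exp_add]; exact exp_le_exp.2 (by nlinarith only [hx, γ0, γ1])
    nlinarith only [a1, exp_one_lt_d9, exp_pos (γ * (L - x))]
  refine ⟨M, k, hh, Sz, τ, b, C, 2 * (k + l + 1) + 1, ⟨wg_pos γ, wg_anti γ0.le, ?_, pl_pos hN' _,
    ?_, by omega, by omega, by omega, ?_, ?_, le_rfl⟩, ?_, by rw [← hyN]; exact hM2, hk4,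
    by linarith, by linarith, hb1, hb2, ?_, by linarith, ?_⟩
  · intro i j hij
    have : (i : ℝ) ≤ j := by exact_mod_cast hij
    exact pl_mono hN' (by nlinarith only [this, y0])
  · exact pl_mono hN' (by push_cast; linarith)
  · intro i _
    refine le_trans (wg_ratio (G := 5) hN' ?_)
      (mul_le_mul_of_nonneg_right exp_five_le (wg_pos _ _).le)
    rw [log_card hL]
    have a0 : (0 : ℝ) ≤ i := Nat.cast_nonneg _
    have a1 : exp (γ * (L - (2 * i - 1) * y)) ≤ exp (γ * L) * exp (1 / 10) := by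
      rw [← exp_add]
      refine exp_le_exp.2 ?_
      have : γ * y ≤ 1 / 10 := by nlinarith only [γ0, γ1, y0, hT, hyT]
      linarith only [this, mul_nonneg (mul_pos γ0 y0).le a0]
    have a2 := abs_exp_sub_one_sub_id_le (x := 1 / 10) (by rw [abs_of_pos] <;> norm_num)
    have a3 := le_abs_self (exp (1 / 10) - 1 - 1 / 10)
    have a4 : exp (γ * (L - (2 * i - 1) * y)) ≤ exp (γ * L) * 1.2 := by
      nlinarith only [a1, a2, a3, exp_pos (γ * L)]
    have a5 : γ * ((2 * ((i + 2 : ℕ) : ℝ) - 1) * y - (2 * i - 1) * y) = γ * (4 * y) := by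
      push_cast; ring
    rw [a5]
    have a6 := mul_le_mul_of_nonneg_left a4 (show 0 ≤ γ * (4 * y) by positivity)
    rw [← mul_assoc (γ * (4 * y)), hE] at a6
    linarith
  · have a1 := wg_gap (γ := γ) (a := -((2 * J + 1) * y)) (b := (2 * ((0 : ℕ) : ℝ) - 1) * y)
      (G := L) hN' (by
        rw [log_card hL]
        refine le_trans (by linarith) (ham1.trans (mul_le_mul (le_of_eq (by push_cast; ring))
          (exp_le_exp.2 ?_) (exp_pos _).le (mul_nonneg γ0.le (by push_cast; linarith))))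
        push_cast
        exact mul_le_mul_of_nonneg_left (by linarith) γ0.le)
    have a2 : ((2 * (k + l + 1) + 1 : ℕ) : ℝ) ≤ exp L := by
      rw [← hL]
      refine le_of_mul_le_mul_left ?_ y0
      rw [hyN]
      push_cast
      have a3 : 100 * s ≤ s ^ 2 := by nlinarith only [hs1]
      linarith
    have a3 := mul_le_mul a1 a2 (Nat.cast_nonneg _) (mul_pos (exp_pos _) (wg_pos _ _)).le
    refine a3.trans (le_of_eq ?_)
    rw [mul_right_comm, ← exp_add]; simp
  · refine (good_prob hL γ0.le (by linarith) y0 (by omega) hT hy3 (Nat.floor_le (by positivity))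
      hM2 hk1 (by linarith) hl1 (by linarith) (by nlinarith only [J2, hh1, L0]) ?_ hτ1 ?_ ?_ ?_
      ham1 ?_).mono (fun _ _ _ h => h) ?_
    · have a1 := mul_le_mul_of_nonneg_left hS1 (sq_nonneg y)
      have a2 : y ^ 2 * (100 * (L * F ^ 2)) = 100 * L * (y * F) ^ 2 := by ring
      rw [a2, hyF] at a1
      linarith
    · have a1 : y * τ ≤ b := by
        have := mul_le_mul_of_nonneg_right hyT (Nat.cast_nonneg (α := ℝ) τ)
        have := mul_nonneg y0.le (Nat.cast_nonneg (α := ℝ) τ)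
        linarith
      have a2 := mul_le_mul_of_nonneg_right a1 F0.le
      rw [hmul] at a2
      have a3 : (b : ℝ) ≤ b * F := le_mul_of_one_le_right (Nat.cast_nonneg _) (by linarith)
      have a4 : (b : ℝ) * F * L ^ 3 ≤ 2 * (10 ^ 12 * (s * s)) := by
        have a5 := mul_le_mul_of_nonneg_right hb2 (show 0 ≤ F * L ^ 3 by positivity)
        have a6 := mul_le_mul_of_nonneg_left h.hFs s0.le
        linarith only [a5, a6]
      have a5 : (10000000 : ℝ) ^ 3 ≤ L ^ 3 := by gcongr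
      have a6 := mul_le_mul_of_nonneg_left a5 (show 0 ≤ (b : ℝ) * F by positivity)
      have a7 : y * Fintype.card V ≤ (2 * J + 1) * y * Fintype.card V := by gcongr
      rw [hyN] at a7
      linarith only [a2, a3, a4, a6, a7, hs1, hs2]
    · have a1 : L * F ≤ s * L ^ 4 := le_trans (by linarith) (le_mul_of_one_le_right s0.le hL4)
      have a2 : 2 * (L * F) ≤ b := by linarith
      have a3 := mul_le_mul_of_nonneg_left a2 y0.le
      have a4 : y * (2 * (L * F)) = 2 * L * (y * F) := by ring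
      rw [a4, hyF] at a3
      linarith
    · have : (0 : ℝ) < C := by linarith
      exact_mod_cast this
    · have a1 := mul_le_mul_of_nonneg_left (hexp ((2 * J - 1) * y) (by linarith))
        (show 0 ≤ γ * ((2 * J - 4) * y) from mul_nonneg γ0.le (mul_nonneg (by linarith) y0.le))
      rw [← mul_div_assoc, hE] at a1
      linarith
    · refine add_le_add le_rfl ?_
      rw [div_le_div_iff₀ (by linarith) L0, mul_assoc 32, mul_assoc _ y, hyN]
      have a1 := mul_le_mul_of_nonneg_right J2 (show 0 ≤ s ^ 2 * L by positivity)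
      linarith only [a1, hC1]
  · have a1 := mul_le_mul_of_nonneg_right (hb1.trans hτ2) F0.le
    have a2 : 32 * ((2 * J + 1) * y) * τ * F = 32 * ((2 * J + 1) * τ) * (y * F) := by ring
    rw [a2, hyF] at a1
    have a3 := mul_le_mul_of_nonneg_right J2 (Nat.cast_nonneg (α := ℝ) τ)
    refine le_of_mul_le_mul_left ?_ L0
    linarith only [a1, a3]
  · push_cast
    have : (0 : ℝ) ≤ l := Nat.cast_nonneg _
    have : 0 ≤ L * F := by positivity
    linarith

end Pool.Agent.Lib.MP_1c11af_pr
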