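import Pool.Agent.Lib.MP_1c11af_pr.PL.Block
import Pool.Agent.Lib.MP_1c11af_pr.PL.Setup

/-!
The case of a small exponent: bounds for a fixed size, sharp up to powers of the logarithm.
-/

namespace Pool.Agent.Lib.MP_1c11af_pr

open Finset MeasureTheory Real
open scoped Classical

set_option linter.unusedSectionVars false

variable {γ L F s : ℝ} {J : ℕ} {V : Type*} [DecidableEq V] [Fintype V]

theorem low_upper2 (hL : (Fintype.card V : ℝ) = exp L) (h : Cond2 γ L F s J) :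
    ∃ K : ℕ, (K : ℝ) ≤ 2 * 10 ^ 15 * (s * L ^ 6) ∧
      Ph (wg γ) (fun (_ : Sym2 V → ℝ) S => ∃ P, PathIn S P K) ≤
        ENNReal.ofReal (exp (-(0.08 * L)) + 800 * (L * exp (-L)) + 32 / L) := by
  have := nonempty_of_card hL
  obtain ⟨M, k, hh, Sz, τ, b, C, len, hp, hs, p1, p2, p3, p5, p6, p7, p8, p9, _⟩ := setup2 hL h
  obtain ⟨b1, b2, b3, b4, b5, hT, hy3⟩ := h.basic
  have hJ : (3 : ℝ) ≤ J := by exact_mod_cast b1
  have s0 := h.s0
  have L1 := h.L1
  have J1 := h.J1
  have J2 := h.J2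
  have F0 : 0 < F := by linarith
  have L0 : 0 < L := by linarith
  have hL1 : (1 : ℝ) ≤ L := by linarith
  have hF1 : (1 : ℝ) ≤ F := by linarith
  have hs1 : (1 : ℝ) ≤ s := by linarith
  have hL2 : 1 ≤ L ^ 2 := one_le_pow₀ hL1
  rw [← hL] at hy3
  set y := 1 / F with hy
  have y0 : 0 < y := by positivity
  have hyF : y * F = 1 := by rw [hy]; field_simp
  set g := (2 * J - 1) * y / 1.1 ^ 2 with hg
  have hgy : y ≤ g := by
    rw [hg, le_div_iff₀ (by norm_num)]; nlinarith only [hJ, y0]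
  obtain ⟨R, hR, hds⟩ := ds_main hL (γ := γ) (g := g) h.γ0 (by linarith)
    (by rw [hg, div_le_one (by norm_num)]; linarith) (by linarith)
    (hy3.trans (by gcongr)) (by
      have a1 : γ * g * exp (γ * L) = (2 * J - 1) * (y * (γ * exp (γ * L))) / 1.1 ^ 2 := by
        rw [hg]; ring
      rw [a1, ← h.hF, hyF, le_div_iff₀ (by norm_num)]
      linarith) h.hB
  have hlv : pl (Fintype.card V) (g * 1.1 ^ 2) = lv (Fintype.card V) y J := by
    rw [lv, hg, div_mul_cancel₀ _ (by norm_num)]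
  rw [hlv] at hds
  set f := ⌊4000 * (s * L) / F⌋₊ with hf
  have f1 : f * F ≤ 4000 * (s * L) := by
    have : (f : ℝ) ≤ 4000 * (s * L) / F := Nat.floor_le (by positivity)
    rwa [le_div_iff₀ F0] at this
  have hsL : s ≤ s * L := le_mul_of_one_le_right s0.le hL1
  have f0 : 1 ≤ 4000 * (s * L) / F := by
    rw [one_le_div F0]; linarith
  have f2 : 2000 * (s * L) ≤ f * F := by
    have := floor_ge_half f0
    rw [div_div, div_le_iff₀ (by positivity), ← hf] at this
    linarith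
  have f3 : 1 ≤ f := (Nat.one_le_floor_iff _).2 f0
  have hX : 0 < s * L ^ 3 * F := by positivity
  have hSM : Sz ≤ M := by
    have a1 : (F * L) ^ 2 ≤ s ^ 2 := by gcongr
    have a2 : 20200 * (L * F ^ 2) ≤ L * (L * F ^ 2) := by gcongr; linarith
    have : (Sz : ℝ) ≤ M := by linarith only [a1, a2, p1, p5]
    exact_mod_cast this
  have hkb : k ≤ b := by
    have a1 : s ≤ s * L ^ 4 := le_mul_of_one_le_right s0.le (one_le_pow₀ hL1)
    have : (k : ℝ) ≤ b := by linarith only [a1, p2, p6, b4, s0]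
    exact_mod_cast this
  have hθ1 : 2 * J * (f * Sz) < τ := by
    have a1 : (f : ℝ) * Sz ≤ 404000 * (s * L ^ 2 * F) := by
      have a2 := mul_le_mul_of_nonneg_left p5 (Nat.cast_nonneg (α := ℝ) f)
      have a3 := mul_le_mul_of_nonneg_left f1 (show 0 ≤ 101 * (L * F) by positivity)
      linarith only [a2, a3]
    have a2 : 2 * (J : ℝ) * (f * Sz) ≤ 250 * L * (404000 * (s * L ^ 2 * F)) :=
      mul_le_mul (by linarith) a1 (by positivity) (by positivity)
    have : 2 * (J : ℝ) * (f * Sz) < τ := by linarith only [a2, p8, hX]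
    exact_mod_cast this
  have hτ : τ ≤ 4 * (τ / 2 - hh) ∧ 0 < τ := by
    have a1 : L ^ 2 ≤ s * L ^ 3 * F :=
      calc L ^ 2 ≤ L ^ 3 := pow_le_pow_right₀ hL1 (by norm_num)
        _ = 1 * L ^ 3 * 1 := by ring
        _ ≤ _ := by gcongr
    have a2 : 4 * (hh : ℝ) + 2 ≤ τ := by linarith only [a1, p3, p8, hL2]
    have a3 : 4 * hh + 2 ≤ τ := by exact_mod_cast a2
    omega
  have hF0 : 0 < f * (τ / 2 - hh) := Nat.mul_pos f3 (by omega)
  have hF : (3 + hh * 150) * C / ((f * (τ / 2 - hh) : ℕ) : ℝ) ≤ exp (-1) := by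
    have a0 : (0 : ℝ) < ((f * (τ / 2 - hh) : ℕ) : ℝ) := by exact_mod_cast hF0
    have a1 : (f : ℝ) * τ ≤ 4 * ((f * (τ / 2 - hh) : ℕ) : ℝ) := by
      have := Nat.mul_le_mul_left f hτ.1
      rw [mul_left_comm] at this
      exact_mod_cast this
    generalize ((f * (τ / 2 - hh) : ℕ) : ℝ) = G at a0 a1
    have a2 : 3 + (hh : ℝ) * 150 ≤ 22500153 * L ^ 2 := by linarith only [p3, hL2]
    have a3 : (3 + (hh : ℝ) * 150) * C ≤ 22500153 * L ^ 2 * (251 * (L ^ 2 * s ^ 2)) := by gcongr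
    have a4 := mul_le_mul_of_nonneg_left p8 (Nat.cast_nonneg (α := ℝ) f)
    have a5 := mul_le_mul_of_nonneg_right f2 (show 0 ≤ s * L ^ 3 by positivity)
    have a6 : 0 ≤ L ^ 4 * s ^ 2 := by positivity
    have a7 : (3 + (hh : ℝ) * 150) * C / G ≤ 1 / 3 := by
      rw [div_le_iff₀ a0]
      linarith only [a1, a3, a4, a5, a6]
    refine a7.trans ?_
    rw [exp_neg, ← one_div]
    exact one_div_le_one_div_of_le (exp_pos 1) (by linarith [exp_one_lt_d9])
  set r := ⌈3 * L⌉₊ with hr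
  have r1 : 3 * L ≤ r := Nat.le_ceil _
  have r2 : (r : ℝ) < 3 * L + 1 := Nat.ceil_lt_add_one (by positivity)
  refine ⟨r * ((J + 1) * b) + R, ?_, ?_⟩
  · have a1 : (R : ℝ) ≤ 240 * (s * L ^ 6) := by
      have a2 : 240 * L / g ≤ 240 * L / y := by gcongr
      have a3 : 240 * L / y = 240 * (F * L) := by rw [hy]; field_simp
      have a4 : s ≤ s * L ^ 6 := le_mul_of_one_le_right s0.le (one_le_pow₀ hL1)
      linarith only [hR, a2, a3, a4, b4]
    have a2 : (r : ℝ) * ((J + 1) * b) ≤ 4 * L * (126 * L * (2 * (10 ^ 12 * (s * L ^ 4)))) := by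
      gcongr <;> linarith
    have a3 : 0 ≤ s * L ^ 6 := by positivity
    push_cast
    linarith only [a1, a2, a3]
  · have hsw := upper_switch (V := V) (wg_meas γ) hp.w0 hp.anti (p0 := lv (Fintype.card V) y 0)
      (pY := lv (Fintype.card V) y J) (Λ := 3 + hh * 150) (hp.pm0.le.trans hp.pm1)
      (hp.mono (Nat.zero_le _)) (by positivity) M C _ r hF0
    refine (Ph_le_of_Sm (hds.or hs) ?_).trans ((add_le_add le_rfl hsw).trans ?_)
    · rintro U S hS ⟨P, hP⟩
      by_cases h1 : ∀ P, ¬ PathIn (S ∩ lev U (lv (Fintype.card V) y J)) P (r * ((J + 1) * b))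
      · exact Or.inl (Or.inl ⟨_, h1, P, hP⟩)
      push Not at h1
      obtain ⟨P', hP'⟩ := h1
      by_cases h2 : Good (lv (Fintype.card V) y) (pl (Fintype.card V) (-((2 * J + 1) * y)))
        J M k hh Sz τ b C len U S
      · exact Or.inr (h2.upper2 hp hS hSM hkb hθ1 (Nat.mul_div_le τ 2) r hP')
      · exact Or.inl (Or.inr h2)
    · rw [← ENNReal.ofReal_add (by positivity) (by positivity)]
      refine ENNReal.ofReal_le_ofReal ?_
      have a1 : (Fintype.card V : ℝ) ^ 2 * ((3 + hh * 150) * C /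
          ((f * (τ / 2 - hh) : ℕ) : ℝ)) ^ r ≤ (Fintype.card V : ℝ) ^ 2 * exp (-1) ^ r := by
        gcongr
      have a2 : (Fintype.card V : ℝ) ^ 2 * exp (-1) ^ r ≤ exp (-L) := by
        rw [hL, ← exp_nat_mul, ← exp_nat_mul, ← exp_add]
        refine exp_le_exp.2 ?_
        push_cast
        linarith only [r1]
      have a3 := mul_le_mul_of_nonneg_right (show 6 * (J : ℝ) + 20 ≤ 800 * L by linarith)
        (exp_pos (-L)).le
      linarith only [a1, a2, a3]

theorem low_lower2 (hL : (Fintype.card V : ℝ) = exp L) (h : Cond2 γ L F s J) (D : ℕ)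
    (hD : D * L ^ 6 ≤ s) :
    Ph (wg γ) (fun (_ : Sym2 V → ℝ) S => ∀ u v, Wd S D u v) ≤
      ENNReal.ofReal (800 * (L * exp (-L)) + 32 / L + 10 ^ 37 / L ^ 2) := by
  have := nonempty_of_card hL
  obtain ⟨M, k, hh, Sz, τ, b, C, len, hp, hs, p1, _, p3, p5, _, _, _, p9, p10⟩ := setup2 hL h
  obtain ⟨b1, b2, b3, b4, b5, _, _⟩ := h.basic
  have hJ : (3 : ℝ) ≤ J := by exact_mod_cast b1
  have s0 := h.s0
  have L1 := h.L1
  have J2 := h.J2
  have F0 : 0 < F := by linarith
  have L0 : 0 < L := by linarith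
  have hL1 : (1 : ℝ) ≤ L := by linarith
  have hF1 : (1 : ℝ) ≤ F := by linarith
  have hs1 : (1 : ℝ) ≤ s := by linarith
  have hL2 : 1 ≤ L ^ 2 := one_le_pow₀ hL1
  have m1 : 2 * Sz ≤ M := by
    have a1 : (F * L) ^ 2 ≤ s ^ 2 := by gcongr
    have a2 : 40400 * (L * F ^ 2) ≤ L * (L * F ^ 2) := by gcongr; linarith
    have : 2 * (Sz : ℝ) ≤ M := by linarith only [a1, a2, p1, p5]
    exact_mod_cast this
  have m2 : 2 * ((D + 1) * hh) ≤ M := by
    have a1 : L ^ 6 ≤ s := by
      refine le_trans ?_ h.hFs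
      calc L ^ 6 ≤ L ^ 7 := pow_le_pow_right₀ hL1 (by norm_num)
        _ = 1 * L ^ 7 := by ring
        _ ≤ _ := by gcongr
    have a2 : ((D : ℝ) + 1) * hh * L ^ 4 ≤ 300002 * s := by
      have a3 := mul_le_mul_of_nonneg_left p3 (show 0 ≤ ((D : ℝ) + 1) * L ^ 4 by positivity)
      linarith only [a1, a3, hD]
    have a3 : (10000000 : ℝ) ^ 4 ≤ L ^ 4 := by gcongr
    have a4 := mul_le_mul_of_nonneg_left a3 (show 0 ≤ ((D : ℝ) + 1) * hh by positivity)
    have a5 : s ≤ s ^ 2 := le_self_pow₀ hs1 (by norm_num)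
    have : 2 * (((D : ℝ) + 1) * hh) ≤ M := by linarith only [a2, a4, a5, p1, s0]
    exact_mod_cast this
  set B := 2 * ((D / len + 1) * hh) + 1 with hB
  have hB1 : B * F * L ^ 5 ≤ 600005 * s := by
    have a1 : ((D / len : ℕ) : ℝ) * len ≤ D := by exact_mod_cast Nat.div_mul_le_self D len
    have a2 : ((D / len : ℕ) : ℝ) * (F * L ^ 7) ≤ s := by
      have a3 : ((D / len : ℕ) : ℝ) * (L * F) ≤ D := le_trans (by gcongr) a1
      have a4 := mul_le_mul_of_nonneg_right a3 (show 0 ≤ L ^ 6 by positivity)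
      linarith only [a4, hD]
    have a3 : (B : ℝ) = 2 * ((((D / len : ℕ) : ℝ) + 1) * hh) + 1 := by rw [hB]; push_cast; ring
    have a4 := mul_le_mul p3 (add_le_add a2 h.hFs) (by positivity) (by positivity)
    have a5 := mul_le_mul_of_nonneg_left hL2 s0.le
    refine le_of_mul_le_mul_left ?_ (show 0 < L ^ 2 by positivity)
    rw [a3]
    linarith only [a4, a5, h.hFs]
  have hsw := lower_switch (V := V) (wg_meas γ) hp.w0 (lv (Fintype.card V) (1 / F)) J
    (Λ := 3 + hh * 150) (F := s ^ 6 / 64000000) (by positivity) (by positivity) M C B Sz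
  refine (Ph_le_of_Sm hs ?_).trans ((add_le_add le_rfl hsw).trans ?_)
  · intro U S hS hW
    by_cases h2 : Good (lv (Fintype.card V) (1 / F))
      (pl (Fintype.card V) (-((2 * J + 1) * (1 / F)))) J M k hh Sz τ b C len U S
    · right
      have a1 := h2.lower hp hS hW (le_refl B)
      have a2 : M * M * M ≤ M * (2 * (M - Sz)) * (2 * (M - (D + 1) * hh)) := by
        gcongr <;> omega
      have a3 : M * M * M ≤ 8 * (univ.filter (GoodT (wg γ) (lv (Fintype.card V) (1 / F)) J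
          (3 + hh * 150) M C B Sz U S)).card := by
        calc _ ≤ _ := a2
          _ = 4 * (M * (M - Sz) * (M - (D + 1) * hh)) := by ring
          _ ≤ _ := by omega
      have a4 : (M : ℝ) * M * M ≤ 8 * (univ.filter (GoodT (wg γ) (lv (Fintype.card V) (1 / F)) J
          (3 + hh * 150) M C B Sz U S)).card := by exact_mod_cast a3
      have a5 : (s ^ 2 / 200) * (s ^ 2 / 200) * (s ^ 2 / 200) ≤ (M : ℝ) * M * M := by gcongr
      linarith only [a4, a5]
    · exact Or.inl h2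
  · rw [← ENNReal.ofReal_add (by positivity) (by positivity)]
    refine ENNReal.ofReal_le_ofReal (add_le_add (add_le_add ?_ le_rfl) ?_)
    · have a3 := mul_le_mul_of_nonneg_right (show 6 * (J : ℝ) + 12 ≤ 800 * L by linarith)
        (exp_pos (-L)).le
      linarith only [a3]
    rw [div_le_div_iff₀ (by positivity) (by positivity)]
    have a1 : (1 : ℝ) ≤ B := by exact_mod_cast (by omega : 1 ≤ B)
    have a2 : 3 + (hh : ℝ) * 150 ≤ 22500153 * L ^ 2 := by linarith only [p3, hL2]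
    have a3 : (3 + (hh : ℝ) * 150) * ((J : ℝ) * (C * C * (2 * B * ((2 * B + 1) * Sz)))) * L ^ 2 ≤
        22500153 * L ^ 2 * (125 * L * (251 * (L ^ 2 * s ^ 2) * (251 * (L ^ 2 * s ^ 2)) *
          (2 * B * ((3 * B) * (101 * (L * F ^ 2)))))) * L ^ 2 := by
      gcongr <;> linarith
    have a4 : (B * F * L ^ 5) ^ 2 ≤ (600005 * s) ^ 2 := by gcongr
    have a5 := mul_le_mul_of_nonneg_left a4 (show 0 ≤ s ^ 4 by positivity)
    have a6 : 0 ≤ s ^ 6 := by positivity
    push_cast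
    linarith only [a3, a5, a6]

end Pool.Agent.Lib.MP_1c11af_pr
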